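import Mathlib
import Pool.Agent.BP245.Defs
import Pool.Agent.BP245.Main

set_option autoImplicit false

namespace Pool.Agent.Results.MP_245eb3_an.ScatteredCase

/-- The question of Burke and Pol has a positive answer for every scattered compact space `K`:
if the Borel sets of the weak topology of `C(K)` differ from the norm Borel sets, then some subset
of `C(K)` that is discrete in the norm topology is not a Borel set of the weak topology. -/
theorem result (K : Type) [TopologicalSpace K] [CompactSpace K] [T2Space K]
    (hK : Pool.Agent.BP245.Scattered K)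
    (hne : MeasurableSpace.comap (toWeakSpace ℝ C(K, ℝ)) (borel (WeakSpace ℝ C(K, ℝ)))
      ≠ borel C(K, ℝ)) :
    ∃ D : Set C(K, ℝ), DiscreteTopology D ∧
      ¬ @MeasurableSet C(K, ℝ)
          (MeasurableSpace.comap (toWeakSpace ℝ C(K, ℝ)) (borel (WeakSpace ℝ C(K, ℝ)))) D :=
  Pool.Agent.BP245.scattered_case hK hne

end Pool.Agent.Results.MP_245eb3_an.ScatteredCase
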